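import Pool.Agent.helper83.LS.Spec

set_option autoImplicit false

/-! # Project ls, module U3: `L(t)` implies `W(un(un(un t)))` -/

namespace LSH

theorem U3_size (t : BT) : 1 ≤ t.size := by
  cases t <;> simp [BT.size]

theorem U3 (ha : U3a_stmt) (hb : U3b_stmt) (hc : U3c_stmt) (hd : U3d_stmt) (he : U3e_stmt) : U3_stmt := by
  classical
  intro t ht S p hcard hgen hleft
  have hcard' : S.card = t.size + 3 := hcard
  have ht1 := U3_size t
  have hS : S.Nonempty := by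
    rw [← Finset.card_pos]
    omega
  have hg : ∀ a ∈ S, ∀ b ∈ S, a ≠ b → a.1 ≠ b.1 ∧ a.2 ≠ b.2 := fun a ha b hb hab =>
    hgen a (Or.inr ha) b (Or.inr hb) hab
  have hgp : ∀ a ∈ S, a.2 ≠ p.2 := by
    intro a ha h
    have hap : a ≠ p := by
      intro h
      have := hleft a ha
      rw [h] at this
      exact lt_irrefl _ this
    exact (hgen a (Or.inr ha) p (Or.inl rfl) hap).2 h
  obtain ⟨z, hz, hzmin⟩ := S.exists_min_image (fun s => s.1) hS
  obtain ⟨N, hN, hNmax⟩ := S.exists_max_image (fun s => s.1) hS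
  obtain ⟨M, hM, hMmin⟩ := S.exists_min_image (fun s => s.2) hS
  obtain ⟨T, hT, hTmax⟩ := S.exists_max_image (fun s => s.2) hS
  by_cases hz2 : z.2 < p.2
  · exact ha t ht S p hcard' hgen hleft (Or.inl ⟨z, hz, hzmin, hz2⟩)
  have hz3 : p.2 < z.2 := lt_of_le_of_ne (not_lt.1 hz2) (hgp z hz).symm
  by_cases hall : ∀ s ∈ S, p.2 < s.2
  · exact ha t ht S p hcard' hgen hleft (Or.inr hall)
  push Not at hall
  obtain ⟨s0, hs0, hs0p⟩ := hall
  have hMp : M.2 < p.2 := lt_of_le_of_ne ((hMmin s0 hs0).trans hs0p) (hgp M hM)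
  by_cases hTz : T = z ∨ ∀ s ∈ S, s.1 ≤ T.1
  · exact hb t ht S p z T hcard' hgen hleft hz hzmin hz3 hT hTmax hTz
  push Not at hTz
  obtain ⟨hTz1, s1, hs1, hs1T⟩ := hTz
  by_cases hMr : ∀ s ∈ S, s.1 ≤ M.1
  · exact hc t ht S p M hcard' hgen hleft hM hMmin hMp hMr
  push Not at hMr
  obtain ⟨s2, hs2, hs2M⟩ := hMr
  have hTN : T.1 < N.1 := lt_of_lt_of_le hs1T (hNmax s1 hs1)
  have hMN : M.1 < N.1 := lt_of_lt_of_le hs2M (hNmax s2 hs2)
  have hMT : M.2 < T.2 := lt_of_lt_of_le (hMp.trans hz3) (hTmax z hz)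
  have hNT : N ≠ T := fun h => by rw [h] at hTN; exact lt_irrefl _ hTN
  have hMN' : M ≠ N := fun h => by rw [h] at hMN; exact lt_irrefl _ hMN
  have hMT' : M ≠ T := fun h => by rw [h] at hMT; exact lt_irrefl _ hMT
  have hne1 : (S \ {z, T}).Nonempty := by
    rw [← Finset.card_pos]
    have h1 := Finset.le_card_sdiff {z, T} S
    have h2 : ({z, T} : Finset Pt).card ≤ 2 := Finset.card_le_two
    omega
  have hne2 : (S \ {M, N, T}).Nonempty := by
    rw [← Finset.card_pos]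
    have h1 := Finset.le_card_sdiff {M, N, T} S
    have h2 : ({M, N, T} : Finset Pt).card ≤ 3 := Finset.card_le_three
    omega
  obtain ⟨g, hgS, hgmax⟩ := (S \ {z, T}).exists_max_image (fun s => s.2) hne1
  obtain ⟨g', hgS', hgmax'⟩ := (S \ {M, N, T}).exists_max_image (fun s => s.2) hne2
  simp only [Finset.mem_sdiff, Finset.mem_insert, Finset.mem_singleton, not_or] at hgS hgS' hgmax hgmax'
  obtain ⟨hg1, hgz, hgT⟩ := hgS
  obtain ⟨hg1', hgM', hgN', hgT'⟩ := hgS'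
  by_cases h1 : T.1 < g.1
  · exact hd t ht S p z T g hcard' hgen hleft hz hzmin hz3 hT hTmax hTz1 hg1 hgz hgT
      (fun s hs hsz hsT => hgmax s ⟨hs, hsz, hsT⟩) h1
  by_cases h2 : g'.1 < T.1
  · exact he t ht S p M N T g' hcard' hgen hleft hM hMmin hMp hN hNmax hT hTmax hMN' hMT' hNT hg1' hgM' hgN' hgT'
      (fun s hs hsM hsN hsT => hgmax' s ⟨hs, hsM, hsN, hsT⟩) h2
  exfalso
  have h1' : g.1 < T.1 := lt_of_le_of_ne (not_lt.1 h1) (hg g hg1 T hT hgT).1
  have h2' : T.1 < g'.1 := lt_of_le_of_ne (not_lt.1 h2) (hg g' hg1' T hT hgT').1.symm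
  have hgz' : g' ≠ z := by
    intro h
    have := hzmin T hT
    rw [h] at h2'
    exact lt_irrefl _ (lt_of_lt_of_le h2' this)
  have hgN : g ≠ N := by
    intro h
    rw [h] at h1'
    exact lt_irrefl _ (h1'.trans hTN)
  have hle : g'.2 ≤ g.2 := hgmax g' ⟨hg1', hgz', hgT'⟩
  by_cases hgM : g = M
  · have h3 : g'.2 ≤ M.2 := by rw [← hgM]; exact hle
    have h4 : M.2 ≤ g'.2 := hMmin g' hg1'
    exact (hg g' hg1' M hM hgM').2 (le_antisymm h3 h4)
  · have h3 : g.2 ≤ g'.2 := hgmax' g ⟨hg1, hgM, hgN, hgT⟩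
    have h4 : g ≠ g' := by
      intro h
      rw [h] at h1'
      exact lt_irrefl _ (h1'.trans h2')
    exact (hg g hg1 g' hg1' h4).2 (le_antisymm h3 hle)

end LSH
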